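import Pool.Agent.Helper61.NW.Goals

set_option autoImplicit false

universe u

namespace Pool.Agent.Helper81.NW

open Pool.Agent.Helper52.Wq2 Pool.Agent.Helper61.NW

/-- Blocks of length `M`. -/
theorem blk_iff {p x M : ℤ} (hM : 0 < M) : p / M = x ↔ x * M ≤ p ∧ p < x * M + M := by
  constructor
  · rintro rfl
    refine ⟨Int.ediv_mul_le p hM.ne', ?_⟩
    have := Int.lt_ediv_add_one_mul_self p hM
    rw [add_mul, one_mul] at this
    exact this
  · rintro ⟨h1, h2⟩
    apply le_antisymm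
    · apply Int.lt_add_one_iff.1
      apply Int.ediv_lt_of_lt_mul hM
      rw [add_mul, one_mul]
      exact h2
    · exact (Int.le_ediv_iff_mul_le hM).2 h1

section

variable {Γ : Type u} [Group Γ] {S : Set Γ} {h : Γ → ℤ} {s : Γ} {H n m : ℕ}

theorem h_one (hT : Two S h s H n m) : h 1 = 0 := by
  have := hT.hom 1 1
  rw [mul_one] at this
  omega

theorem h_inv (hT : Two S h s H n m) (g : Γ) : h g⁻¹ = - h g := by
  have h1 := hT.hom g g⁻¹
  rw [mul_inv_cancel, h_one hT] at h1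
  omega

theorem h_zpow (hT : Two S h s H n m) (g : Γ) (k : ℤ) : h (g ^ k) = k * h g := by
  induction k with
  | zero => rw [zpow_zero, h_one hT, zero_mul]
  | succ k ih =>
    rw [zpow_add_one, hT.hom, ih]
    ring
  | pred k ih =>
    rw [zpow_sub_one, hT.hom, ih, h_inv hT]
    ring

theorem pos_mul_zpow (hT : Two S h s H n m) (g : Γ) (k : ℤ) :
    h (g * s ^ k) / (H : ℤ) = h g / (H : ℤ) + k := by
  rw [hT.hom, h_zpow hT, hT.Hs]
  have : (H : ℤ) ≠ 0 := by
    have := hT.Hpos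
    omega
  exact Int.add_mul_ediv_right _ _ this

theorem pos_mul (hT : Two S h s H n m) (g : Γ) {t : Γ} (ht : t ∈ S) :
    h (g * t) / (H : ℤ) ≤ h g / (H : ℤ) + 1 ∧ h g / (H : ℤ) - 1 ≤ h (g * t) / (H : ℤ) := by
  have hH : (0 : ℤ) < H := by
    have := hT.Hpos
    omega
  have h1 := abs_le.1 (hT.max t ht)
  have h2 := hT.hom g t
  have e1 : (h g + H) / (H : ℤ) = h g / (H : ℤ) + 1 := by
    have := Int.add_mul_ediv_right (h g) 1 hH.ne'
    rwa [one_mul] at this
  have e2 : (h g + (-1) * H) / (H : ℤ) = h g / (H : ℤ) + (-1) :=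
    Int.add_mul_ediv_right (h g) (-1) hH.ne'
  constructor
  · rw [← e1]
    exact Int.ediv_le_ediv hH (by omega)
  · have : h g / (H : ℤ) - 1 = (h g + (-1) * H) / (H : ℤ) := by
      rw [e2]
      ring
    rw [this]
    exact Int.ediv_le_ediv hH (by omega)

theorem line_eq {g g' : Γ} : ((g : Γ) : Γ ⧸ Subgroup.zpowers s) = g' ↔ ∃ k : ℤ, g' = g * s ^ k := by
  rw [QuotientGroup.eq]
  constructor
  · rintro ⟨k, hk⟩
    refine ⟨k, ?_⟩
    have hk' : s ^ k = g⁻¹ * g' := hk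
    rw [hk', mul_inv_cancel_left]
  · rintro ⟨k, rfl⟩
    rw [inv_mul_cancel_left]
    exact ⟨k, rfl⟩

theorem cen_zpow (hT : Two S h s H n m) (g : Γ) (k : ℤ) : g * s ^ ((m : ℤ) * k) =
    s ^ ((m : ℤ) * k) * g := by
  have h1 : Commute g (s ^ m) := hT.cen g
  have h2 := h1.zpow_right k
  rw [← zpow_natCast, ← zpow_mul] at h2
  exact h2

theorem line_pt (hT : Two S h s H n m) (l : Γ ⧸ Subgroup.zpowers s) (p : ℤ) :
    ∃ g : Γ, (g : Γ ⧸ Subgroup.zpowers s) = l ∧ h g / (H : ℤ) = p := by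
  obtain ⟨g, rfl⟩ := QuotientGroup.mk_surjective l
  refine ⟨g * s ^ (p - h g / (H : ℤ)), ?_, ?_⟩
  · exact ((line_eq).2 ⟨_, rfl⟩).symm
  · rw [pos_mul_zpow hT]
    ring

/-- An edge between two adjacent lines in the block `x`. -/
theorem edge_blk (hT : Two S h s H n m) {l l' : Γ ⧸ Subgroup.zpowers s} (hl : (Ln S s).Adj l l')
    (x : ℤ) : ∃ u t : Γ, t ∈ S ∧ (u : Γ ⧸ Subgroup.zpowers s) = l ∧
      ((u * t : Γ) : Γ ⧸ Subgroup.zpowers s) = l' ∧
      (h u / (H : ℤ)) / ((m : ℤ) + 1) = x ∧ (h (u * t) / (H : ℤ)) / ((m : ℤ) + 1) = x := by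
  have hm : (0 : ℤ) < m := by
    have := hT.mpos
    omega
  have hex : ∃ g t : Γ, t ∈ S ∧ (g : Γ ⧸ Subgroup.zpowers s) = l ∧
      ((g * t : Γ) : Γ ⧸ Subgroup.zpowers s) = l' := by
    rcases hl.2 with ⟨g, t, ht, h1, h2⟩ | ⟨g, t, ht, h1, h2⟩
    · exact ⟨g, t, ht, h1, h2⟩
    · refine ⟨g * t, t⁻¹, hT.gen.2.1 t ht, h2, ?_⟩
      rw [mul_inv_cancel_right]
      exact h1
  obtain ⟨g, t, ht, h1, h2⟩ := hex
  have hp := pos_mul hT g ht
  obtain ⟨k, hk1, hk2⟩ : ∃ k : ℤ,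
      x * ((m : ℤ) + 1) ≤ min (h g / (H : ℤ)) (h (g * t) / (H : ℤ)) + m * k ∧
      min (h g / (H : ℤ)) (h (g * t) / (H : ℤ)) + m * k < x * ((m : ℤ) + 1) + m := by
    set p := min (h g / (H : ℤ)) (h (g * t) / (H : ℤ)) with hpdef
    refine ⟨-((p - x * ((m : ℤ) + 1)) / m), ?_⟩
    have e := Int.emod_add_mul_ediv (p - x * ((m : ℤ) + 1)) m
    have e1 := Int.emod_nonneg (p - x * ((m : ℤ) + 1)) hm.ne'
    have e2 := Int.emod_lt_of_pos (p - x * ((m : ℤ) + 1)) hm
    rw [mul_neg]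
    constructor <;> linarith
  have hmin : min (h g / (H : ℤ)) (h (g * t) / (H : ℤ)) ≤ h g / (H : ℤ) := min_le_left _ _
  have hmin' : min (h g / (H : ℤ)) (h (g * t) / (H : ℤ)) ≤ h (g * t) / (H : ℤ) := min_le_right _ _
  have hmm : min (h g / (H : ℤ)) (h (g * t) / (H : ℤ)) = h g / (H : ℤ) ∨
      min (h g / (H : ℤ)) (h (g * t) / (H : ℤ)) = h (g * t) / (H : ℤ) := min_choice _ _
  have hM : (0 : ℤ) < (m : ℤ) + 1 := by omega
  refine ⟨g * s ^ ((m : ℤ) * k), t, ht, ?_, ?_, ?_, ?_⟩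
  · rw [← h1]
    exact ((line_eq).2 ⟨_, rfl⟩).symm
  · rw [← h2]
    symm
    rw [line_eq]
    refine ⟨(m : ℤ) * k, ?_⟩
    rw [mul_assoc, mul_assoc, cen_zpow hT t]
  · rw [blk_iff hM, pos_mul_zpow hT]
    rcases hmm with e | e <;> rw [e] at hk1 hk2 hmin hmin' <;> constructor <;> linarith [hp.1, hp.2]
  · have e3 : g * s ^ ((m : ℤ) * k) * t = (g * t) * s ^ ((m : ℤ) * k) := by
      rw [mul_assoc, mul_assoc, cen_zpow hT t]
    rw [e3, blk_iff hM, pos_mul_zpow hT]
    rcases hmm with e | e <;> rw [e] at hk1 hk2 hmin hmin' <;> constructor <;> linarith [hp.1, hp.2]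

/-- A set `A` of elements closed under adjacency inside the block contains the whole line. -/
theorem line_closed (hT : Two S h s H n m) (x : ℤ) (T A : Set Γ)
    (hT' : ∀ g g' : Γ, (g : Γ ⧸ Subgroup.zpowers s) = g' → g ∈ T →
      (h g' / (H : ℤ)) / ((m : ℤ) + 1) = x → g' ∈ T)
    (hb : ∀ g ∈ T, (h g / (H : ℤ)) / ((m : ℤ) + 1) = x)
    (hAT : A ⊆ T) (hcl : ∀ a ∈ A, ∀ b ∈ T, (cay S).Adj a b → b ∈ A)
    {a b : Γ} (ha : a ∈ A) (hab : (a : Γ ⧸ Subgroup.zpowers s) = b) (hb' : b ∈ T) : b ∈ A := by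
  have hM : (0 : ℤ) < (m : ℤ) + 1 := by
    have := hT.mpos
    omega
  obtain ⟨k, rfl⟩ := line_eq.1 hab
  have hline : ∀ (a : Γ) (j : ℤ), (a : Γ ⧸ Subgroup.zpowers s) = (a * s ^ j : Γ) :=
    fun a j => line_eq.2 ⟨j, rfl⟩
  have hpa := (blk_iff hM).1 (hb a (hAT ha))
  have hpb := (blk_iff hM).1 (hb _ hb')
  rw [pos_mul_zpow hT] at hpb
  rcases Int.le_total 0 k with hk | hk
  · obtain ⟨k, rfl⟩ := Int.eq_ofNat_of_zero_le hk
    have key : ∀ j : ℕ, j ≤ k → a * s ^ (j : ℤ) ∈ A := by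
      intro j
      induction j with
      | zero =>
        intro _
        simpa using ha
      | succ j ih =>
        intro hj
        have hja := ih (by omega)
        refine hcl _ hja _ ?_ ?_
        · refine hT' a _ (hline a _) (hAT ha) ?_
          rw [blk_iff hM, pos_mul_zpow hT]
          push_cast at hpb ⊢
          have : (j : ℤ) + 1 ≤ k := by exact_mod_cast hj
          constructor <;> linarith [hpa.1, hpb.2]
        · have e : a * s ^ ((j + 1 : ℕ) : ℤ) = a * s ^ (j : ℤ) * s := by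
            push_cast
            rw [zpow_add_one, mul_assoc]
          rw [e]
          exact cay_adj_mul hT.gen _ hT.hs
    exact key k le_rfl
  · obtain ⟨k', hk'⟩ := Int.eq_ofNat_of_zero_le (show 0 ≤ -k by omega)
    have hkk : k = -(k' : ℤ) := by omega
    subst hkk
    have key : ∀ j : ℕ, j ≤ k' → a * s ^ (-(j : ℤ)) ∈ A := by
      intro j
      induction j with
      | zero =>
        intro _
        simpa using ha
      | succ j ih =>
        intro hj
        have hja := ih (by omega)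
        refine hcl _ hja _ ?_ ?_
        · refine hT' a _ (hline a _) (hAT ha) ?_
          rw [blk_iff hM, pos_mul_zpow hT]
          push_cast at hpb ⊢
          have : (j : ℤ) + 1 ≤ k' := by exact_mod_cast hj
          constructor <;> linarith [hpa.2, hpb.1]
        · have e : a * s ^ (-(j : ℤ)) = a * s ^ (-((j + 1 : ℕ) : ℤ)) * s := by
            rw [mul_assoc, ← zpow_add_one]
            congr 2
            push_cast
            ring
          rw [e]
          exact (cay_adj_mul hT.gen _ hT.hs).symm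
    exact key k' le_rfl

/-- The lines of a connected set `L` of lines in the block `x` are connected. -/
theorem conn_blk (hT : Two S h s H n m) (L : Set (Γ ⧸ Subgroup.zpowers s)) (hL : Conn (Ln S s) L)
    (x : ℤ) : Conn (cay S) {g : Γ | (g : Γ ⧸ Subgroup.zpowers s) ∈ L ∧
      (h g / (H : ℤ)) / ((m : ℤ) + 1) = x} := by
  have hM : (0 : ℤ) < (m : ℤ) + 1 := by
    have := hT.mpos
    omega
  obtain ⟨⟨l₀, hl₀⟩, hL2⟩ := hL
  constructor
  · obtain ⟨g, hg1, hg2⟩ := line_pt hT l₀ (x * ((m : ℤ) + 1))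
    refine ⟨g, ?_, ?_⟩
    · rw [hg1]
      exact hl₀
    · rw [hg2]
      exact Int.mul_ediv_cancel _ hM.ne'
  · intro A hA hAne hcl
    have hcl' : ∀ {a b : Γ}, a ∈ A → (a : Γ ⧸ Subgroup.zpowers s) = b →
        (h b / (H : ℤ)) / ((m : ℤ) + 1) = x → b ∈ A := by
      intro a b ha hab hb
      refine line_closed hT x {g : Γ | (g : Γ ⧸ Subgroup.zpowers s) ∈ L ∧
        (h g / (H : ℤ)) / ((m : ℤ) + 1) = x} A ?_ ?_ hA hcl ha hab ?_
      · rintro g g' hgg' ⟨hg1, hg2⟩ hg'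
        exact ⟨hgg' ▸ hg1, hg'⟩
      · rintro g ⟨_, hg⟩
        exact hg
      · exact ⟨hab ▸ (hA ha).1, hb⟩
    have hall : L ⊆ {l | ∃ a ∈ A, (a : Γ ⧸ Subgroup.zpowers s) = l} := by
      apply hL2
      · rintro l ⟨a, ha, rfl⟩
        exact (hA ha).1
      · obtain ⟨a, ha⟩ := hAne
        exact ⟨_, a, ha, rfl⟩
      · rintro l ⟨a, ha, rfl⟩ l' hl' hadj
        obtain ⟨u, t, ht, hu1, hu2, hu3, hu4⟩ := edge_blk hT hadj x
        have huA : u ∈ A := hcl' ha hu1.symm hu3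
        refine ⟨u * t, hcl u huA _ ⟨?_, hu4⟩ (cay_adj_mul hT.gen _ ht), hu2⟩
        rw [hu2]
        exact hl'
    rintro b ⟨hb1, hb2⟩
    obtain ⟨a, ha, hab⟩ := hall hb1
    exact hcl' ha hab hb2

end

theorem stl : StlStmt.{u} := by
  intro Γ _ S h s H n m hT q C B hC hB hBC hadj
  have hM : (0 : ℤ) < (m : ℤ) + 1 := by
    have := hT.mpos
    omega
  let L : Option (Fin q) → Set (Γ ⧸ Subgroup.zpowers s) := fun o => o.elim C (fun i => {B i})
  have hL : ∀ o, Conn (Ln S s) (L o) := by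
    intro o
    cases o with
    | none => exact hC
    | some i => exact conn_singleton _ _
  have hLd : ∀ o o' l, l ∈ L o → l ∈ L o' → o = o' := by
    intro o o' l h1 h2
    cases o with
    | none =>
      cases o' with
      | none => rfl
      | some j =>
        have e : l = B j := h2
        exact absurd (e ▸ h1) (hBC j)
    | some i =>
      have e1 : l = B i := h1
      cases o' with
      | none => exact absurd (e1 ▸ h2) (hBC i)
      | some j =>
        have e2 : l = B j := h2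
        rw [hB (e1.symm.trans e2)]
  refine ⟨fun v => {g : Γ | (g : Γ ⧸ Subgroup.zpowers s) ∈ L v.2 ∧
    (h g / (H : ℤ)) / ((m : ℤ) + 1) = v.1}, fun v => conn_blk hT _ (hL v.2) v.1, ?_, ?_⟩
  · rintro ⟨x, o⟩ ⟨y, o'⟩ g ⟨hg1, hg2⟩ ⟨hg3, hg4⟩
    exact Prod.ext (hg2.symm.trans hg4) (hLd o o' _ hg1 hg3)
  · have main : ∀ v w : ℤ × Option (Fin q), v ≠ w →
        ((v.2 = w.2 ∧ w.1 = v.1 + 1) ∨ (v.1 = w.1 ∧ v.2 = none)) →
        ∃ a ∈ {g : Γ | (g : Γ ⧸ Subgroup.zpowers s) ∈ L v.2 ∧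
          (h g / (H : ℤ)) / ((m : ℤ) + 1) = v.1},
        ∃ b ∈ {g : Γ | (g : Γ ⧸ Subgroup.zpowers s) ∈ L w.2 ∧
          (h g / (H : ℤ)) / ((m : ℤ) + 1) = w.1}, (cay S).Adj a b := by
      rintro ⟨x, o⟩ ⟨y, o'⟩ hne (⟨h1, h2⟩ | ⟨h1, h2⟩)
      · have h1' : o = o' := h1
        have h2' : y = x + 1 := h2
        subst h1' h2'
        obtain ⟨⟨l, hl⟩, _⟩ := hL o
        obtain ⟨g, hg1, hg2⟩ := line_pt hT l (x * ((m : ℤ) + 1) + m)
        refine ⟨g, ⟨?_, ?_⟩, g * s, ⟨?_, ?_⟩, cay_adj_mul hT.gen _ hT.hs⟩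
        · rw [hg1]
          exact hl
        · rw [hg2, blk_iff hM]
          constructor <;> linarith [hT.mpos]
        · have : ((g * s : Γ) : Γ ⧸ Subgroup.zpowers s) = l := by
            rw [← hg1]
            symm
            rw [line_eq]
            exact ⟨1, by rw [zpow_one]⟩
          rw [this]
          exact hl
        · have e := pos_mul_zpow hT g 1
          rw [zpow_one] at e
          rw [e, hg2, blk_iff hM]
          constructor <;> linarith [hT.mpos]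
      · have h1' : x = y := h1
        have h2' : o = none := h2
        subst h1' h2'
        cases o' with
        | none => exact absurd rfl hne
        | some i =>
          obtain ⟨l, hl, hadjl⟩ := hadj i
          obtain ⟨u, t, ht, hu1, hu2, hu3, hu4⟩ := edge_blk hT hadjl x
          refine ⟨u, ⟨?_, hu3⟩, u * t, ⟨?_, hu4⟩, cay_adj_mul hT.gen _ ht⟩
          · rw [hu1]
            exact hl
          · rw [hu2]
            exact rfl
    intro v w hvw
    rcases hvw with ⟨hne, h1 | h1⟩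
    · exact main v w hne h1
    · obtain ⟨a, ha, b, hb, hab⟩ := main w v hne.symm h1
      exact ⟨b, hb, a, ha, hab.symm⟩

end Pool.Agent.Helper81.NW
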